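import Pool.Agent.V11203.Lad.Main

/-!
# A linearly orderable topological group without suitable set

There is (in ZFC) an abelian group `G` with a linear order, compatible with the addition, whose
order topology is a totally disconnected group topology, such that `G` is not separable, no point
of `G` is the intersection of countably many open sets, and `G` has no suitable set: there is no
set `S` which is discrete as a subspace, for which `S ∪ {0}` is closed, and which generates a dense
subgroup.

`G` is the group of functions `ω₁ → ℤ` generated by the unit vectors and by the indicator functions
of ladders (cofinal sets of order type `ω` in the countable limit ordinals), with the lexicographic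
order.
-/

set_option autoImplicit false

open Set Topology

namespace Pool.Agent.Results.MP_41e59e_gt.LadderGroup

open Pool.Agent.V11203.Lad

theorem result : ∃ (G : Type) (_ : AddCommGroup G) (_ : LinearOrder G) (_ : TopologicalSpace G),
    IsTopologicalAddGroup G ∧ OrderTopology G ∧ IsOrderedAddMonoid G ∧
    TotallyDisconnectedSpace G ∧ ¬ TopologicalSpace.SeparableSpace G ∧
    (∀ (x : G) (U : ℕ → Set G), (∀ n, IsOpen (U n)) → ⋂ n, U n ≠ {x}) ∧
    ¬ ∃ S : Set G, DiscreteTopology S ∧ IsClosed (S ∪ {0}) ∧
      Dense (AddSubgroup.closure S : Set G) :=
  ⟨LG (Cardinal.aleph 1).ord.ToType, inferInstance, inferInstance, inferInstance, inferInstance,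
    inferInstance, inferInstance, inferInstance, not_separable, iInter_ne,
    fun ⟨S, hd, hS, hdense⟩ => no_suitable S hS hd hdense⟩

end Pool.Agent.Results.MP_41e59e_gt.LadderGroup
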